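import Pool.Agent.K1H53.BI.Plan5
import Pool.Agent.K1H39.BI.Gen

/-!
# The smearing error
-/

set_option autoImplicit false

open Finset

namespace Pool.Agent.K1H6.BI5

open Pool.Agent.K1H53.BI

open Pool.Agent.K1H39.BI (nsq_int)

theorem nsq_add_le (x y : V) : nsq (x + y) ≤ 2 * nsq x + 2 * nsq y := by
  have h : (nsq (x + y) : ℤ) ≤ 2 * nsq x + 2 * nsq y := by
    rw [nsq_int, nsq_int, nsq_int]
    simp only [Pi.add_apply]
    nlinarith [sq_nonneg (x 0 - y 0), sq_nonneg (x 1 - y 1), sq_nonneg (x 2 - y 2)]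
  exact_mod_cast h

/-- the sum of the absolute values of the coordinates -/
def l1 (y : V) : ℕ := ∑ i, (y i).natAbs

theorem l1_sq (y : V) : l1 y ^ 2 ≤ 4 * nsq y := by
  have h := sq_sum_le_card_mul_sum_sq (s := (Finset.univ : Finset (Fin 3)))
    (f := fun i => (y i).natAbs)
  simp only [Finset.card_univ, Fintype.card_fin] at h
  unfold l1 nsq
  omega

theorem down (y : V) (hy : y ≠ 0) : ∃ (y' : V) (e : Fin 3 × Bool), y = y' + dir e ∧
    l1 y' + 1 = l1 y ∧ nsq y' ≤ nsq y := by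
  obtain ⟨i, hi⟩ := Function.ne_iff.1 hy
  rcases lt_or_gt_of_ne hi with h | h
  · refine ⟨y - dir (i, false), (i, false), by simp, ?_, ?_⟩
    · fin_cases i <;> simp [l1, dir, Fin.sum_univ_three] at h ⊢ <;> omega
    · have h2 : (nsq (y - dir (i, false)) : ℤ) ≤ nsq y := by
        rw [nsq_int, nsq_int]
        fin_cases i <;> simp [dir] at h ⊢ <;> nlinarith
      exact_mod_cast h2
  · refine ⟨y - dir (i, true), (i, true), by simp, ?_, ?_⟩
    · fin_cases i <;> simp [l1, dir, Fin.sum_univ_three] at h ⊢ <;> omega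
    · have h2 : (nsq (y - dir (i, true)) : ℤ) ≤ nsq y := by
        rw [nsq_int, nsq_int]
        fin_cases i <;> simp [dir] at h ⊢ <;> nlinarith
      exact_mod_cast h2

theorem path (g : V → ℝ) (D : ℝ) (Q : ℕ)
    (hg : ∀ (p : V) (e : Fin 3 × Bool), 64 * nsq p ≤ Q → |g (p + dir e) - g p| ≤ D) :
    ∀ (k : ℕ) (y : V), l1 y = k → 64 * nsq y ≤ Q → |g y - g 0| ≤ k * D := by
  intro k
  induction k with
  | zero =>
    intro y hy _
    have : y = 0 := by
      funext i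
      have h := (Finset.sum_eq_zero_iff.1 hy) i (Finset.mem_univ i)
      simpa using h
    rw [this]
    simp
  | succ k ih =>
    intro y hy hQ
    have hy0 : y ≠ 0 := by
      rintro rfl
      simp [l1] at hy
    obtain ⟨y', e, h1, h2, h3⟩ := down y hy0
    have h4 := ih y' (by omega) (by omega)
    have h5 := hg y' e (by omega)
    rw [← h1] at h5
    have h6 : |g y - g 0| ≤ |g y - g y'| + |g y' - g 0| := abs_sub_le _ _ _
    push_cast
    linarith

/-- the part near the origin, one point -/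
theorem near {lam Cq n s l D δ : ℝ} (hn : 0 ≤ n) (hs : 0 < s)
    (hl0 : 0 ≤ lam) (hl : lam ≤ Cq / ((n + 1) ^ 2 * s)) (hl1 : l ≤ 2 * s) (hD : 0 ≤ D)
    (hδ0 : 0 ≤ δ) (hδ : δ ≤ l * D) : lam * δ ≤ 2 * Cq * D * (1 / (n + 1) ^ 2) := by
  have h1 : δ ≤ 2 * s * D := hδ.trans (mul_le_mul_of_nonneg_right hl1 hD)
  have h2 : lam * δ ≤ Cq / ((n + 1) ^ 2 * s) * (2 * s * D) :=
    mul_le_mul hl h1 hδ0 (hl0.trans hl)
  have h3 : Cq / ((n + 1) ^ 2 * s) * (2 * s * D) = 2 * Cq * D * (1 / (n + 1) ^ 2) := by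
    field_simp
  linarith

/-- the part far from the origin, one point -/
theorem far {lam Cq n s R a b A : ℝ} (hn : 0 ≤ n) (hR : 0 < R) (hs : R / 8 ≤ s)
    (hs2 : s ^ 2 = n + 1) (hCq : 0 < Cq) (hl0 : 0 ≤ lam) (hl : lam ≤ Cq / ((n + 1) ^ 2 * s))
    (ha : 0 ≤ a) (hb : 0 ≤ b) (hbA : b ≤ A) :
    lam * |a - b| ≤ 8 * Cq / R * A * (1 / (n + 1) ^ 2) + 32768 * Cq / R ^ 5 * a := by
  have hs0 : 0 < s := lt_of_lt_of_le (by positivity) hs
  have h1 : |a - b| ≤ a + b := by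
    rw [abs_le]; constructor <;> linarith
  have h2 : Cq / ((n + 1) ^ 2 * s) ≤ 8 * Cq / R * (1 / (n + 1) ^ 2) := by
    rw [mul_one_div, div_div, div_le_div_iff₀ (by positivity) (by positivity)]
    have : Cq * (n + 1) ^ 2 * R ≤ Cq * (n + 1) ^ 2 * (8 * s) :=
      mul_le_mul_of_nonneg_left (by linarith) (by positivity)
    nlinarith
  have h3 : Cq / ((n + 1) ^ 2 * s) ≤ 32768 * Cq / R ^ 5 := by
    have e1 : (n + 1) ^ 2 * s = s ^ 5 := by rw [← hs2]; ring
    rw [e1, div_le_div_iff₀ (by positivity) (by positivity)]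
    have h4 : (R / 8) ^ 5 ≤ s ^ 5 := pow_le_pow_left₀ (by positivity) hs 5
    have h5 : (R / 8) ^ 5 = R ^ 5 / 32768 := by ring
    rw [h5] at h4
    have h6 : R ^ 5 ≤ 32768 * s ^ 5 := by linarith
    have := mul_le_mul_of_nonneg_left h6 hCq.le
    linarith
  calc lam * |a - b| ≤ lam * (a + b) := mul_le_mul_of_nonneg_left h1 hl0
    _ = lam * b + lam * a := by ring
    _ ≤ 8 * Cq / R * (1 / (n + 1) ^ 2) * A + 32768 * Cq / R ^ 5 * a :=
        add_le_add (mul_le_mul (hl.trans h2) hbA hb (by positivity))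
          (mul_le_mul_of_nonneg_right (hl.trans h3) ha)
    _ = _ := by ring

theorem t_ERR : S_ERR := by
  intro hPOT hQ hGRAD hU1 hL1
  obtain ⟨Cq, hCq, hl0, -, hl⟩ := hQ
  obtain ⟨Cg, hCg, hgrad⟩ := hGRAD
  obtain ⟨C1, R1, hC1, hU⟩ := hU1
  obtain ⟨CL, hCL, hL⟩ := hL1
  refine ⟨(2 * Cq * (32 * Cg * C1) + 8 * Cq * C1) * CL + 98304 * Cq, max R1 16, by positivity, ?_⟩
  intro R G z hR hG hz hz4
  have hR1 : R1 ≤ R := (le_max_left _ _).trans hR
  have hR16 : 16 ≤ R := (le_max_right _ _).trans hR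
  have hRr : (16 : ℝ) ≤ R := by exact_mod_cast hR16
  have hR0 : (0 : ℝ) < R := by linarith
  have hnz : nrm z ≤ R := by
    unfold nrm
    rw [Real.sqrt_le_left hR0.le]
    exact_mod_cast hz
  have hnz0 : 0 ≤ nrm z := Real.sqrt_nonneg _
  have hnz2 : nrm z ^ 2 = nsq z := Real.sq_sqrt (Nat.cast_nonneg _)
  obtain ⟨H, hH⟩ : ∃ H : ℝ, H = (R : ℝ) + 1 - nrm z := ⟨_, rfl⟩
  have hH1 : 1 ≤ H := by linarith
  rw [← hH]
  have hUb : ∀ x : V, 16 * nsq x ≤ R ^ 2 → G z x ≤ C1 * H / (R : ℝ) ^ 2 := by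
    intro x hx
    rw [hH]
    exact hU R G z x hR1 hG hz hz4 hx
  -- harmonic
  have hharm : ∀ x : V, 16 * nsq x ≤ R ^ 2 → av (G z) x = G z x := by
    intro x hx
    have hR2 : 0 < R ^ 2 := by positivity
    have hxR : nsq x ≤ R ^ 2 := by omega
    have hne : x ≠ z := by
      rintro rfl
      omega
    have h1 := hG.eq x z hxR hz
    rw [if_neg hne, sub_zero] at h1
    have h2 : (fun x' => G x' z) = G z := by
      funext x'
      exact hG.symm x' z
    rw [h2, hG.symm x z] at h1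
    exact h1
  -- one step
  have hstep : ∀ (p : V) (e : Fin 3 × Bool), 64 * nsq p ≤ R ^ 2 →
      |G z (p + dir e) - G z p| ≤ 32 * Cg * C1 * (H / (R : ℝ) ^ 3) := by
    intro p e hp
    have hn1 : 1 ≤ R / 16 := (Nat.one_le_div_iff (by norm_num)).2 hR16
    have hn16 : 16 * (R / 16) ≤ R := Nat.mul_div_le R 16
    have hball : ∀ x : V, nsq (x - p) ≤ (R / 16 + 1) ^ 2 → 16 * nsq x ≤ R ^ 2 := by
      intro x hx
      have h1 := nsq_add_le p (x - p)
      rw [add_sub_cancel] at h1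
      have h2 : (8 * (R / 16 + 1)) ^ 2 ≤ R ^ 2 := Nat.pow_le_pow_left (by omega) 2
      have h3 : (8 * (R / 16 + 1)) ^ 2 = 64 * (R / 16 + 1) ^ 2 := by ring
      omega
    have h := hgrad (R / 16) p (C1 * H / (R : ℝ) ^ 2) (G z) e hn1
      (fun x hx => hharm x (hball x (hx.trans (Nat.pow_le_pow_left (Nat.le_succ _) 2))))
      (fun x hx => ⟨hG.nonneg z x, hUb x (hball x hx)⟩)
    refine h.trans ?_
    have hnr : (R : ℝ) / 32 ≤ ((R / 16 : ℕ) : ℝ) := by
      have h1 : R ≤ 32 * (R / 16) := by omega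
      have h2 : (R : ℝ) ≤ 32 * ((R / 16 : ℕ) : ℝ) := by exact_mod_cast h1
      linarith
    calc Cg * (C1 * H / (R : ℝ) ^ 2) / ((R / 16 : ℕ) : ℝ) ≤
          Cg * (C1 * H / (R : ℝ) ^ 2) / ((R : ℝ) / 32) :=
          div_le_div_of_nonneg_left (by positivity) (by positivity) hnr
      _ = 32 * Cg * C1 * (H / (R : ℝ) ^ 3) := by
          field_simp
  -- one point
  have hpt : ∀ y ∈ BR R, lam y * |G z y - G z 0| ≤
      (2 * Cq * (32 * Cg * C1) + 8 * Cq * C1) * (H / (R : ℝ) ^ 3) * (1 / ((nsq y : ℝ) + 1) ^ 2) +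
        32768 * Cq / (R : ℝ) ^ 5 * G z y := by
    intro y _
    have hn : (0 : ℝ) ≤ (nsq y : ℝ) := Nat.cast_nonneg _
    have hs : 0 < Real.sqrt ((nsq y : ℝ) + 1) := Real.sqrt_pos.2 (by linarith)
    have hs2 : Real.sqrt ((nsq y : ℝ) + 1) ^ 2 = (nsq y : ℝ) + 1 := Real.sq_sqrt (by linarith)
    have hHR : 0 ≤ H / (R : ℝ) ^ 3 := by positivity
    have hinv : 0 ≤ 1 / ((nsq y : ℝ) + 1) ^ 2 := by positivity
    have hGy := hG.nonneg z y
    by_cases hy : 64 * nsq y ≤ R ^ 2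
    · have h1 := path (G z) _ (R ^ 2) hstep (l1 y) y rfl hy
      have h2 : (l1 y : ℝ) ≤ 2 * Real.sqrt ((nsq y : ℝ) + 1) := by
        have h3 : (l1 y : ℝ) ^ 2 ≤ 4 * (nsq y : ℝ) := by exact_mod_cast l1_sq y
        refine (pow_le_pow_iff_left₀ (Nat.cast_nonneg _) (by positivity) two_ne_zero).1 ?_
        rw [mul_pow, hs2]
        linarith
      have h3 := near hn hs (hl0 y) (hl y) h2 (by positivity) (abs_nonneg _) h1
      have h4 : 0 ≤ 8 * Cq * C1 * (H / (R : ℝ) ^ 3) * (1 / ((nsq y : ℝ) + 1) ^ 2) := by positivity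
      have h5 : 0 ≤ 32768 * Cq / (R : ℝ) ^ 5 * G z y := mul_nonneg (by positivity) hGy
      nlinarith
    · push Not at hy
      have h1 : (R : ℝ) / 8 ≤ Real.sqrt ((nsq y : ℝ) + 1) := by
        refine (pow_le_pow_iff_left₀ (by positivity) hs.le two_ne_zero).1 ?_
        rw [hs2]
        have h2 : (R : ℝ) ^ 2 < 64 * (nsq y : ℝ) := by exact_mod_cast hy
        have h3 : ((R : ℝ) / 8) ^ 2 = (R : ℝ) ^ 2 / 64 := by ring
        rw [h3]
        linarith
      have h2 := far hn hR0 h1 hs2 hCq (hl0 y) (hl y) hGy (hG.nonneg z 0)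
        (hUb 0 (by simp [nsq]))
      have h3 : 8 * Cq / (R : ℝ) * (C1 * H / (R : ℝ) ^ 2) = 8 * Cq * C1 * (H / (R : ℝ) ^ 3) := by
        field_simp
      rw [h3] at h2
      have h4 : 0 ≤ 2 * Cq * (32 * Cg * C1) * (H / (R : ℝ) ^ 3) *
        (1 / ((nsq y : ℝ) + 1) ^ 2) := by positivity
      nlinarith
  -- the sum
  have hsumG : ∑ y ∈ BR R, G z y ≤ ((R : ℝ) + 1) ^ 2 - nsq z :=
    (hPOT R G hG).2 z (mem_BR.2 hz)
  have hsumG' : ∑ y ∈ BR R, G z y ≤ 3 * R * H := by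
    refine hsumG.trans ?_
    have h1 : ((R : ℝ) + 1) ^ 2 - nsq z = H * (R + 1 + nrm z) := by
      rw [hH, ← hnz2]; ring
    rw [h1]
    have h2 : H * (R + 1 + nrm z) ≤ H * (3 * R) := mul_le_mul_of_nonneg_left (by linarith)
      (by linarith)
    linarith
  calc ∑ y ∈ BR R, lam y * |G z y - G z 0| ≤
        ∑ y ∈ BR R, ((2 * Cq * (32 * Cg * C1) + 8 * Cq * C1) * (H / (R : ℝ) ^ 3) *
          (1 / ((nsq y : ℝ) + 1) ^ 2) + 32768 * Cq / (R : ℝ) ^ 5 * G z y) :=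
        Finset.sum_le_sum hpt
    _ = (2 * Cq * (32 * Cg * C1) + 8 * Cq * C1) * (H / (R : ℝ) ^ 3) *
          (∑ y ∈ BR R, 1 / ((nsq y : ℝ) + 1) ^ 2) +
          32768 * Cq / (R : ℝ) ^ 5 * ∑ y ∈ BR R, G z y := by
        rw [Finset.sum_add_distrib, Finset.mul_sum, Finset.mul_sum]
    _ ≤ (2 * Cq * (32 * Cg * C1) + 8 * Cq * C1) * (H / (R : ℝ) ^ 3) * CL +
          32768 * Cq / (R : ℝ) ^ 5 * (3 * R * H) :=
        add_le_add (mul_le_mul_of_nonneg_left (hL R) (by positivity))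
          (mul_le_mul_of_nonneg_left hsumG' (by positivity))
    _ ≤ ((2 * Cq * (32 * Cg * C1) + 8 * Cq * C1) * CL + 98304 * Cq) * H / (R : ℝ) ^ 3 := by
        have e1 : 32768 * Cq / (R : ℝ) ^ 5 * (3 * R * H) = 98304 * Cq * H / (R : ℝ) ^ 4 := by
          field_simp
          ring
        have e2 : 98304 * Cq * H / (R : ℝ) ^ 4 ≤ 98304 * Cq * H / (R : ℝ) ^ 3 := by
          apply div_le_div_of_nonneg_left (by positivity) (by positivity)
          exact pow_le_pow_right₀ (by linarith) (by norm_num)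
        have e3 : ((2 * Cq * (32 * Cg * C1) + 8 * Cq * C1) * CL + 98304 * Cq) * H / (R : ℝ) ^ 3 =
          (2 * Cq * (32 * Cg * C1) + 8 * Cq * C1) * (H / (R : ℝ) ^ 3) * CL +
            98304 * Cq * H / (R : ℝ) ^ 3 := by
          ring
        rw [e1, e3]
        linarith

end Pool.Agent.K1H6.BI5
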