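import Pool.Agent.K1H53.BI.Plan5

/-!
# A convergent lattice sum
-/

set_option autoImplicit false

open Finset

namespace Pool.Agent.K1H6.BI5

open Pool.Agent.K1H53.BI

/-- weight of one coordinate -/
noncomputable def wt (a : ℤ) : ℝ := ((a : ℝ) ^ 2 + 1) ^ (-(2 / 3) : ℝ)

theorem wt_pos (a : ℤ) : 0 < wt a := Real.rpow_pos_of_pos (by positivity) _

theorem wt_summable : Summable wt := by
  have h1 : Summable fun n : ℤ => |(n : ℝ)| ^ (-(4 / 3) : ℝ) :=
    Real.summable_abs_int_rpow (by norm_num)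
  have h2 : Summable fun n : ℤ => |(n : ℝ)| ^ (-(4 / 3) : ℝ) + (if n = 0 then (1 : ℝ) else 0) :=
    h1.add (summable_of_ne_finset_zero (s := {0}) fun b hb => by
      rw [if_neg (by simpa using hb)])
  refine Summable.of_nonneg_of_le (fun n => (wt_pos n).le) (fun n => ?_) h2
  by_cases hn : n = 0
  · rw [if_pos hn, hn]
    unfold wt
    have : 0 ≤ |((0 : ℤ) : ℝ)| ^ (-(4 / 3) : ℝ) := by positivity
    norm_num at this ⊢
  · rw [if_neg hn, add_zero]
    have h0 : 0 < |(n : ℝ)| := abs_pos.2 (by exact_mod_cast hn)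
    have h3 : |(n : ℝ)| ^ (-(4 / 3) : ℝ) = (|(n : ℝ)| ^ 2) ^ (-(2 / 3) : ℝ) := by
      rw [← Real.rpow_natCast, ← Real.rpow_mul h0.le]
      norm_num
    rw [h3, sq_abs]
    unfold wt
    exact Real.rpow_le_rpow_of_nonpos (by rw [← sq_abs]; positivity) (by linarith) (by norm_num)

theorem nsq_real (x : V) : (nsq x : ℝ) = ∑ i, (x i : ℝ) ^ 2 := by
  unfold nsq
  push_cast
  refine Finset.sum_congr rfl fun i _ => ?_
  rw [Nat.cast_natAbs, Int.cast_abs, sq_abs]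

theorem le_prod (y : V) : 1 / ((nsq y : ℝ) + 1) ^ 2 ≤ ∏ i, wt (y i) := by
  have h0 : (0 : ℝ) < (nsq y : ℝ) + 1 := by positivity
  have h1 : 1 / ((nsq y : ℝ) + 1) ^ 2 = ∏ _i : Fin 3, ((nsq y : ℝ) + 1) ^ (-(2 / 3) : ℝ) := by
    rw [Finset.prod_const, Finset.card_univ, Fintype.card_fin, ← Real.rpow_natCast,
      ← Real.rpow_natCast, ← Real.rpow_mul h0.le, one_div, ← Real.rpow_neg h0.le]
    norm_num
  rw [h1]
  refine Finset.prod_le_prod (fun i _ => (Real.rpow_pos_of_pos h0 _).le) fun i _ => ?_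
  unfold wt
  refine Real.rpow_le_rpow_of_nonpos (by positivity) ?_ (by norm_num)
  rw [nsq_real]
  have := Finset.single_le_sum (f := fun i => (y i : ℝ) ^ 2) (fun i _ => sq_nonneg _)
    (Finset.mem_univ i)
  linarith

theorem t_L1 : S_L1 := by
  refine ⟨(∑' a, wt a) ^ 3, pow_pos (wt_summable.tsum_pos (fun a => (wt_pos a).le) 0 (wt_pos 0)) 3,
    fun R => ?_⟩
  have hsub : BR R ⊆ Fintype.piFinset fun _ : Fin 3 => Finset.Icc (-(R : ℤ)) (R : ℤ) := by
    intro x hx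
    unfold BR at hx
    rw [Finset.mem_filter, Finset.mem_Icc] at hx
    rw [Fintype.mem_piFinset]
    exact fun i => Finset.mem_Icc.2 ⟨hx.1.1 i, hx.1.2 i⟩
  calc ∑ y ∈ BR R, 1 / ((nsq y : ℝ) + 1) ^ 2 ≤ ∑ y ∈ BR R, ∏ i, wt (y i) :=
        Finset.sum_le_sum fun y _ => le_prod y
    _ ≤ ∑ y ∈ Fintype.piFinset fun _ : Fin 3 => Finset.Icc (-(R : ℤ)) (R : ℤ), ∏ i, wt (y i) :=
        Finset.sum_le_sum_of_subset_of_nonneg hsub fun y _ _ =>
          Finset.prod_nonneg fun i _ => (wt_pos _).le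
    _ = ∏ _i : Fin 3, ∑ a ∈ Finset.Icc (-(R : ℤ)) (R : ℤ), wt a := by
        rw [Finset.prod_univ_sum]
    _ = (∑ a ∈ Finset.Icc (-(R : ℤ)) (R : ℤ), wt a) ^ 3 := by
        rw [Finset.prod_const, Finset.card_univ, Fintype.card_fin]
    _ ≤ (∑' a, wt a) ^ 3 := by
        refine pow_le_pow_left₀ (Finset.sum_nonneg fun a _ => (wt_pos a).le) ?_ 3
        exact wt_summable.sum_le_tsum _ fun a _ => (wt_pos a).le

end Pool.Agent.K1H6.BI5
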